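import Pool.Agent.W845.GL.Stm

/-! Project GL: counting embeddings. -/

set_option autoImplicit false

namespace Pool.Agent.W45.GL

open Pool.Agent.W845.GL Finset
open scoped Classical

noncomputable section

/-- embeddings with a prescribed value -/
def cnt {k n : ℕ} (u : Fin k) (y : Fin n) : ℕ :=
  ((Finset.univ : Finset (Fin k ↪ Fin n)).filter fun φ => φ u = y).card

theorem cnt_le {k n : ℕ} (u : Fin k) (y y' : Fin n) : cnt u y ≤ cnt u y' := by
  unfold cnt
  refine Finset.card_le_card_of_injOn (fun φ => φ.trans (Equiv.swap y y').toEmbedding) ?_ ?_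
  · intro φ hφ
    have h1 : φ u = y := (Finset.mem_filter.mp hφ).2
    refine Finset.mem_filter.mpr ⟨Finset.mem_univ _, ?_⟩
    show Equiv.swap y y' (φ u) = y'
    rw [h1, Equiv.swap_apply_left]
  · intro φ _ ψ _ h
    ext i
    have h2 : Equiv.swap y y' (φ i) = Equiv.swap y y' (ψ i) := congrArg (fun f => f i) h
    exact congrArg Fin.val ((Equiv.swap y y').injective h2)

theorem cnt_mul {k n : ℕ} (u : Fin k) (y : Fin n) :
    n * cnt u y = (Finset.univ : Finset (Fin k ↪ Fin n)).card := by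
  have h1 : (Finset.univ : Finset (Fin k ↪ Fin n)).card = ∑ y' : Fin n, cnt u y' := by
    unfold cnt
    exact Finset.card_eq_sum_card_fiberwise fun φ _ => Finset.mem_coe.mpr (Finset.mem_univ (φ u))
  rw [h1, Finset.sum_congr rfl fun y' _ => le_antisymm (cnt_le u y' y) (cnt_le u y y'),
    Finset.sum_const, Finset.card_univ, Fintype.card_fin, smul_eq_mul]

theorem pair_mul {k n : ℕ} (u v : Fin k) :
    n * ((Finset.univ : Finset ((Fin k ↪ Fin n) × (Fin k ↪ Fin n))).filter
      fun z => z.1 u = z.2 v).card = (Finset.univ : Finset (Fin k ↪ Fin n)).card ^ 2 := by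
  have h1 : ((Finset.univ : Finset ((Fin k ↪ Fin n) × (Fin k ↪ Fin n))).filter
      fun z => z.1 u = z.2 v).card = ∑ ψ : Fin k ↪ Fin n, cnt u (ψ v) := by
    rw [Finset.card_eq_sum_card_fiberwise (f := fun z => z.2)
      (t := (Finset.univ : Finset (Fin k ↪ Fin n)))
      fun z _ => Finset.mem_coe.mpr (Finset.mem_univ z.2)]
    refine Finset.sum_congr rfl fun ψ _ => ?_
    unfold cnt
    refine Finset.card_bij (fun z _ => z.1) ?_ ?_ ?_
    · intro z hz
      rw [Finset.mem_filter, Finset.mem_filter] at hz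
      refine Finset.mem_filter.mpr ⟨Finset.mem_univ _, ?_⟩
      rw [hz.1.2, hz.2]
    · intro z hz z' hz' h
      rw [Finset.mem_filter] at hz hz'
      exact Prod.ext h (hz.2.trans hz'.2.symm)
    · intro φ hφ
      rw [Finset.mem_filter] at hφ
      refine ⟨(φ, ψ), ?_, rfl⟩
      rw [Finset.mem_filter, Finset.mem_filter]
      exact ⟨⟨Finset.mem_univ _, hφ.2⟩, rfl⟩
  rw [h1, Finset.mul_sum, Finset.sum_congr rfl fun ψ _ => cnt_mul u (ψ v), Finset.sum_const,
    smul_eq_mul, sq]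

theorem cardE (k n : ℕ) : (Finset.univ : Finset (Fin k ↪ Fin n)).card = n.descFactorial k := by
  rw [Finset.card_univ, Fintype.card_embedding_eq, Fintype.card_fin, Fintype.card_fin]

theorem part2 (n k : ℕ) : n * ((Finset.univ : Finset ((Fin k ↪ Fin n) × (Fin k ↪ Fin n))).filter
      (fun z => ∃ u v, z.1 u = z.2 v)).card ≤ k ^ 2 * (n.descFactorial k) ^ 2 := by
  have h1 : ((Finset.univ : Finset ((Fin k ↪ Fin n) × (Fin k ↪ Fin n))).filter
      (fun z => ∃ u v, z.1 u = z.2 v)) ⊆ (Finset.univ : Finset (Fin k × Fin k)).biUnion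
      fun w => ((Finset.univ : Finset ((Fin k ↪ Fin n) × (Fin k ↪ Fin n))).filter
        fun z => z.1 w.1 = z.2 w.2) := by
    intro z hz
    obtain ⟨u, v, huv⟩ := (Finset.mem_filter.mp hz).2
    rw [Finset.mem_biUnion]
    exact ⟨(u, v), Finset.mem_univ _, Finset.mem_filter.mpr ⟨Finset.mem_univ _, huv⟩⟩
  have h2 := (Finset.card_le_card h1).trans Finset.card_biUnion_le
  refine (Nat.mul_le_mul_left n h2).trans ?_
  rw [Finset.mul_sum, Finset.sum_congr rfl fun w _ => pair_mul w.1 w.2, Finset.sum_const,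
    Finset.card_univ, Fintype.card_prod, Fintype.card_fin, smul_eq_mul, cardE, sq k]

theorem ind_eq {k n : ℕ} (F : SimpleGraph (Fin k)) (φ : Fin k → Fin n)
    (e : Fin n × Fin n → Bool) :
    ind F φ e = if ∀ a ∈ Eg F, (GE e).Adj (φ a.1) (φ a.2) then (1 : ℝ) else 0 := by
  unfold ind
  by_cases h : ∀ a ∈ Eg F, (GE e).Adj (φ a.1) (φ a.2)
  · rw [if_pos h]
    exact Finset.prod_eq_one fun a ha => if_pos (h a ha)
  · rw [if_neg h]
    push Not at h
    obtain ⟨a, ha, hn⟩ := h
    exact Finset.prod_eq_zero ha (if_neg hn)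

/-- the equivalence -/
def eqv {k n : ℕ} (F : SimpleGraph (Fin k)) (e : Fin n × Fin n → Bool) :
    {f : F →g GE e // Function.Injective f} ≃
      {φ : Fin k ↪ Fin n // ∀ a ∈ Eg F, (GE e).Adj (φ a.1) (φ a.2)} where
  toFun f := ⟨⟨f.1, f.2⟩, fun a ha => f.1.map_adj (Finset.mem_filter.mp ha).2.2⟩
  invFun φ := ⟨⟨φ.1, by
    intro u v huv
    rcases lt_trichotomy u v with h | h | h
    · exact φ.2 (u, v) (Finset.mem_filter.mpr ⟨Finset.mem_univ _, h, huv⟩)
    · exact absurd (h ▸ huv) (F.irrefl)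
    · exact (φ.2 (v, u) (Finset.mem_filter.mpr ⟨Finset.mem_univ _, h, huv.symm⟩)).symm⟩,
    φ.1.injective⟩
  left_inv f := by
    apply Subtype.ext
    rfl
  right_inv φ := by
    apply Subtype.ext
    rfl

theorem part3 (n k : ℕ) (F : SimpleGraph (Fin k)) (e : Fin n × Fin n → Bool) :
    (nemb F (GE e) : ℝ) = ∑ φ : Fin k ↪ Fin n, ind F φ e := by
  have h1 : ∑ φ : Fin k ↪ Fin n, ind F φ e =
      (((Finset.univ : Finset (Fin k ↪ Fin n)).filter
        fun φ => ∀ a ∈ Eg F, (GE e).Adj (φ a.1) (φ a.2)).card : ℝ) := by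
    rw [← Finset.sum_boole]
    exact Finset.sum_congr rfl fun φ _ => ind_eq F φ e
  rw [h1]
  unfold nemb
  rw [Nat.card_congr (eqv F e), Nat.card_eq_fintype_card, Fintype.card_subtype]

theorem r3 : S_R3 := by
  refine ⟨fun n k => ?_, fun n k => ?_, part3⟩
  · rw [cardE]
  · exact_mod_cast part2 n k

end

end Pool.Agent.W45.GL
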